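import Pool.Agent.Helper5.LCU.Stmts

set_option autoImplicit false

open Finset Pool.Agent.Helper89.UB Pool.Agent.Helper5.LCU

namespace Pool.Agent.Helper39.LCU

theorem st_GP : ST_GP := by
  intro a b ha hb n
  induction n with
  | zero =>
    intro p q
    refine ⟨mul_nonneg (ha p) (hb q), ?_⟩
    constructor
    · intro h
      have h1 : 0 < a p * b q := h
      refine ⟨0, 0, le_rfl, le_rfl, le_rfl, ?_, ?_⟩
      · rcases lt_or_eq_of_le (ha p) with h2 | h2
        · exact h2
        · rw [← h2, zero_mul] at h1
          exact absurd h1 (lt_irrefl 0)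
      · rcases lt_or_eq_of_le (hb q) with h2 | h2
        · exact h2
        · rw [← h2, mul_zero] at h1
          exact absurd h1 (lt_irrefl 0)
    · rintro ⟨i, k, hi, hk, -, h1, h2⟩
      have hi0 : i = 0 := by omega
      have hk0 : k = 0 := by omega
      rw [hi0, Nat.add_zero] at h1
      rw [hk0, Nat.add_zero] at h2
      exact mul_pos h1 h2
  | succ n ih =>
    intro p q
    have h1 := ih (p + 1) q
    have h2 := ih p (q + 1)
    have h3 := ih (p + 1) (q + 1)
    have e : GA a b (n + 1) p q
        = GA a b n (p + 1) q + GA a b n p (q + 1) + GA a b n (p + 1) (q + 1) := rfl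
    rw [e]
    refine ⟨by linarith [h1.1, h2.1, h3.1], ?_⟩
    constructor
    · intro h
      have h4 : 0 < GA a b n (p + 1) q ∨ 0 < GA a b n p (q + 1) ∨
          0 < GA a b n (p + 1) (q + 1) := by
        by_contra hc
        push Not at hc
        linarith [hc.1, hc.2.1, hc.2.2]
      rcases h4 with h4 | h4 | h4
      · obtain ⟨i, k, hi, hk, hik, hai, hbk⟩ := h1.2.1 h4
        refine ⟨i + 1, k, by omega, by omega, by omega, ?_, hbk⟩
        have e1 : p + (i + 1) = p + 1 + i := by omega
        rw [e1]
        exact hai
      · obtain ⟨i, k, hi, hk, hik, hai, hbk⟩ := h2.2.1 h4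
        refine ⟨i, k + 1, by omega, by omega, by omega, hai, ?_⟩
        have e1 : q + (k + 1) = q + 1 + k := by omega
        rw [e1]
        exact hbk
      · obtain ⟨i, k, hi, hk, hik, hai, hbk⟩ := h3.2.1 h4
        refine ⟨i + 1, k + 1, by omega, by omega, by omega, ?_, ?_⟩
        · have e1 : p + (i + 1) = p + 1 + i := by omega
          rw [e1]
          exact hai
        · have e1 : q + (k + 1) = q + 1 + k := by omega
          rw [e1]
          exact hbk
    · rintro ⟨i, k, hi, hk, hik, hai, hbk⟩
      by_cases c1 : 1 ≤ i ∧ k ≤ n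
      · have h4 : 0 < GA a b n (p + 1) q := by
          refine h1.2.2 ⟨i - 1, k, by omega, c1.2, by omega, ?_, hbk⟩
          have e1 : p + 1 + (i - 1) = p + i := by omega
          rw [e1]
          exact hai
        linarith [h1.1, h2.1, h3.1]
      · by_cases c2 : 1 ≤ k ∧ i ≤ n
        · have h4 : 0 < GA a b n p (q + 1) := by
            refine h2.2.2 ⟨i, k - 1, c2.2, by omega, by omega, hai, ?_⟩
            have e1 : q + 1 + (k - 1) = q + k := by omega
            rw [e1]
            exact hbk
          linarith [h1.1, h2.1, h3.1]
        · have hi' : i = n + 1 := by omega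
          have hk' : k = n + 1 := by omega
          have h4 : 0 < GA a b n (p + 1) (q + 1) := by
            refine h3.2.2 ⟨n, n, le_rfl, le_rfl, by omega, ?_, ?_⟩
            · have e1 : p + 1 + n = p + i := by omega
              rw [e1]
              exact hai
            · have e1 : q + 1 + n = q + k := by omega
              rw [e1]
              exact hbk
          linarith [h1.1, h2.1, h3.1]

end Pool.Agent.Helper39.LCU
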